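import Pool.Agent.Y103.Fj.Hk

/-!
# Varieties with a Fujiki relation on divisors: all divisors of positive square at once
-/

open CategoryTheory AlgebraicGeometry Submodule

universe u v

namespace Pool.Agent.V11322.FU

open Pool.Agent.H914 Pool.Agent.H914.VarClass Pool.Agent.H914.VarClass.Obj
  Pool.Agent.H914.WeilCohomology Pool.Agent.H281R3.HT Pool.Agent.W552 Pool.Agent.Y103
  Pool.Agent.Y103.Fj

variable {k : Type u} [Field k] {𝒱 : VarClass k} {ops : CycleOps 𝒱}
  {W : WeilCohomology.{u, v} ops} {X : 𝒱.Obj} {D : X.Cycles} {n : ℕ}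
  {q : QuadraticForm ℚ X.Cycles} {c : ℚ}

/-- The form is zero on homologically trivial divisors. -/
lemma q_zero (hn : X.dim = 2 * n) (hn1 : 1 ≤ n) (hc : 0 < c)
    (hF : ∀ z, X.IsCyc 1 z → X.V.degCycle (divPow ops z (2 * n) X.V.fundCycle) = c * q z ^ n)
    {z : X.Cycles} (hz : X.IsCyc 1 z) (h0 : W.cl X z = 0) : q z = 0 := by
  have h1 := tr_pow (W := W) hn hF hz
  rw [h0, zero_pow (by omega), map_zero] at h1
  have h2 : c * q z ^ n = 0 := by exact_mod_cast h1.symm
  exact pow_eq_zero_iff (by omega) |>.1 ((mul_eq_zero.1 h2).resolve_left hc.ne')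

/-- A divisor which is orthogonal to `D` is primitive. -/
lemma prim_of_polar (hn : X.dim = 2 * n) (hn1 : 1 ≤ n) (hD : X.IsCyc 1 D)
    (hF : ∀ z, X.IsCyc 1 z → X.V.degCycle (divPow ops z (2 * n) X.V.fundCycle) = c * q z ^ n)
    {z : X.Cycles} (hz : X.IsCyc 1 z) (hp : QuadraticMap.polar q D z = 0) :
    W.cl X D ^ (2 * n - 1) * W.cl X z = 0 := by
  have h1 := fujiki_coeff (W := W) hn hD hF hz (l := 1) (by omega)
  rw [pow_one, quadPow_coeff_one, hp, mul_zero, mul_zero, Rat.cast_zero, Nat.choose_one_right,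
    W.even_comm (W.cl_mem hz)] at h1
  have h2 : ((2 * n : ℕ) : W.K) ≠ 0 := Nat.cast_ne_zero.2 (by omega)
  have h3 := (mul_eq_zero.1 h1).resolve_left h2
  have h4 : W.cl X D ^ (2 * n - 1) * W.cl X z ∈ algClasses W X (2 * n - 1 + 1) :=
    alg_mul (pow_alg hD _) ⟨z, hz, rfl⟩
  have h5 := alg_gr h4
  rw [show 2 * n - 1 + 1 = X.dim by omega] at h5
  exact top_eq_zero h5 h3

/-- The form is negative on the divisors which are orthogonal to `D` and not homologically
trivial. -/
def NegOn (W : WeilCohomology.{u, v} ops) (X : 𝒱.Obj) (q : QuadraticForm ℚ X.Cycles)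
    (D : X.Cycles) : Prop :=
  ∀ z, X.IsCyc 1 z → QuadraticMap.polar q D z = 0 → W.cl X z ≠ 0 → q z < 0

/-- From one divisor of positive square to another one. -/
lemma negOn_switch (hn : X.dim = 2 * n) (hn1 : 1 ≤ n) (hc : 0 < c)
    (hF : ∀ z, X.IsCyc 1 z → X.V.degCycle (divPow ops z (2 * n) X.V.fundCycle) = c * q z ^ n)
    {D₀ : X.Cycles} (hD : X.IsCyc 1 D) (hq : 0 < q D) (h0 : NegOn W X q D₀) :
    NegOn W X q D := by
  intro z hz hp hz0
  by_contra hneg
  rw [not_lt] at hneg
  set s := QuadraticMap.polar q D₀ D with hs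
  set t := QuadraticMap.polar q D₀ z with ht
  have hv : X.IsCyc 1 (t • D + (-s) • z) := (SmVar.IsCyc.smul _ hD).add (SmVar.IsCyc.smul _ hz)
  have hpol : QuadraticMap.polar q D₀ (t • D + (-s) • z) = 0 := by
    rw [QuadraticMap.polar_add_right, QuadraticMap.polar_smul_right,
      QuadraticMap.polar_smul_right, ← hs, ← ht]
    simp only [smul_eq_mul]
    ring
  have hqv : q (t • D + (-s) • z) = t ^ 2 * q D + s ^ 2 * q z := by
    rw [QuadraticMap.map_add q, QuadraticMap.map_smul, QuadraticMap.map_smul,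
      QuadraticMap.polar_smul_left, QuadraticMap.polar_smul_right, hp]
    simp only [smul_eq_mul]
    ring
  have hnn : 0 ≤ s ^ 2 * q z := mul_nonneg (sq_nonneg _) hneg
  by_cases ht0 : t = 0
  · exact absurd (h0 z hz (by rw [← ht]; exact ht0) hz0) (not_lt.2 hneg)
  · have hpos : 0 < q (t • D + (-s) • z) := by
      rw [hqv]
      have : 0 < t ^ 2 * q D := mul_pos (pow_pos_of_ne_zero ht0) hq
      linarith
    by_cases hcl : W.cl X (t • D + (-s) • z) = 0
    · rw [q_zero (W := W) hn hn1 hc hF hv hcl] at hpos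
      exact lt_irrefl _ hpos
    · exact absurd (h0 _ hv hpol hcl) (not_lt.2 hpos.le)
where
  pow_pos_of_ne_zero {t : ℚ} (h : t ≠ 0) : 0 < t ^ 2 := by positivity

/-- The Hodge index theorem for divisors from the signature. -/
lemma hodgeOne_of_negOn (hn : X.dim = 2 * n) (hn1 : 1 ≤ n) (hc : 0 < c)
    (hF : ∀ z, X.IsCyc 1 z → X.V.degCycle (divPow ops z (2 * n) X.V.fundCycle) = c * q z ^ n)
    (hD : X.IsCyc 1 D) (hq : 0 < q D) (h0 : NegOn W X q D) :
    HodgeTypeFor W X D (InRing W.K (algClasses W X) 1 1) := by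
  intro j hj z hz hT hp hz0
  have hdeg := deg_eq (W := W) hz (divPow_mem (ops := ops) hD (X.dim - 2 * j) hz) (by omega)
  rw [cl_divPow, mulLeft_pow_apply'] at hdeg
  rw [cl_divPow, mulLeft_pow_apply'] at hp
  have hj1 : j ≤ 1 := by
    obtain ⟨i, hi, hx⟩ := hT
    by_contra hj1
    have h1 := genRing_gr (fun _ => subset_rfl) hx
    have h2 := W.cl_mem hz
    have h3 := proj_same (W.isInternal X) h1
    rw [proj_ne (W.isInternal X) h2 (by omega)] at h3
    exact hz0 h3.symm
  rcases Nat.lt_or_ge j 1 with hlt | hge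
  · obtain rfl : j = 0 := by omega
    have hz' := W.cl_mem hz
    rw [mul_zero, W.gr_zero, mem_span_singleton] at hz'
    obtain ⟨t, ht⟩ := hz'
    have htr := tr_pow (W := W) hn hF hD
    obtain ⟨s, hs⟩ := alg_rat (W := W) (X := X) (l := 0) (l' := 2 * n) ⟨z, hz, rfl⟩
      (pow_alg hD (2 * n))
    rw [bil_apply] at hs
    rw [mul_zero, Nat.sub_zero, hn] at hdeg
    rw [mul_zero, Nat.sub_zero, hn, pow_zero, one_mul]
    have hcq : (0 : ℚ) < c * q D ^ n := by positivity
    have h1 : (s : W.K) = t * ((c * q D ^ n : ℚ) : W.K) := by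
      rw [← hs, ← ht, smul_mul_assoc, one_mul, map_smul, htr, smul_eq_mul]
    have h2 : ((X.V.degCycle (ops.mul z (divPow ops D (2 * n) z)) : ℚ) : W.K) *
        ((c * q D ^ n : ℚ) : W.K) = ((s * s : ℚ) : W.K) := by
      rw [← hdeg, ← ht, smul_mul_assoc, one_mul, mul_smul_comm, mul_one, map_smul, map_smul, htr,
        smul_eq_mul, smul_eq_mul]
      push_cast
      rw [h1]
      push_cast
      ring
    have h3 : X.V.degCycle (ops.mul z (divPow ops D (2 * n) z)) * (c * q D ^ n) = s * s := by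
      exact_mod_cast h2
    have hs0 : s ≠ 0 := by
      rintro rfl
      rw [Rat.cast_zero] at h1
      have h4 : t = 0 := by
        rcases mul_eq_zero.1 h1.symm with h | h
        · exact h
        · exact absurd (by exact_mod_cast h) hcq.ne'
      rw [h4, zero_smul] at ht
      exact hz0 ht.symm
    have h5 : 0 < s * s := mul_self_pos.2 hs0
    rw [← h3] at h5
    exact pos_of_mul_pos_left h5 hcq.le
  · obtain rfl : j = 1 := by omega
    have hp' : W.cl X D ^ (2 * n - 1) * W.cl X z = 0 := by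
      rwa [show X.dim - 2 * 1 + 1 = 2 * n - 1 by omega] at hp
    have hpol := polar_zero (W := W) hn hn1 hD hc hF hq hz hp'
    have hneg := h0 z hz hpol hz0
    have h1 := q_prim (W := W) hn hn1 hD hc hF hq hz hp'
    have hg := gam_pos hn1 hc hq
    have h2 : W.cl X z * (W.cl X D ^ (X.dim - 2 * 1) * W.cl X z) =
        W.cl X z * W.cl X z * W.cl X D ^ (2 * n - 2) := by
      rw [mul_assoc, W.even_comm (W.cl_mem hz) (W.cl X D ^ (2 * n - 2)),
        show X.dim - 2 * 1 = 2 * n - 2 by omega]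
    rw [h2] at hdeg
    rw [hdeg] at h1
    have h3 : q z = gam n c (q D) *
        X.V.degCycle (ops.mul z (divPow ops D (X.dim - 2 * 1) z)) := by exact_mod_cast h1
    rw [h3] at hneg
    have h4 : X.V.degCycle (ops.mul z (divPow ops D (X.dim - 2 * 1) z)) < 0 := by
      by_contra h5
      rw [not_lt] at h5
      exact absurd (mul_nonneg hg.le h5) (not_le.2 hneg)
    rw [pow_one, neg_one_mul]
    linarith

/-- The signature from the Hodge index theorem for divisors. -/
lemma negOn_of_hodgeOne (hn : X.dim = 2 * n) (hn1 : 1 ≤ n) (hc : 0 < c)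
    (hF : ∀ z, X.IsCyc 1 z → X.V.degCycle (divPow ops z (2 * n) X.V.fundCycle) = c * q z ^ n)
    (hD : X.IsCyc 1 D) (hq : 0 < q D)
    (hI : HodgeTypeFor W X D (InRing W.K (algClasses W X) 1 1)) : NegOn W X q D := by
  intro z hz hp hz0
  have hp' := prim_of_polar (W := W) hn hn1 hD hF hz hp
  obtain ⟨r, hr, h1⟩ := divisor_index hn hn1 hD hI ⟨z, hz, rfl⟩ hp' hz0
  rw [nform_apply] at h1
  have h2 := q_prim (W := W) hn hn1 hD hc hF hq hz hp'
  have h3 : W.tr X (W.cl X z * W.cl X z * W.cl X D ^ (2 * n - 2)) = ((-r : ℚ) : W.K) := by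
    rw [Rat.cast_neg, ← h1, neg_neg]
  rw [h3] at h2
  have h4 : q z = gam n c (q D) * (-r) := by exact_mod_cast h2
  have hg := gam_pos hn1 hc hq
  rw [h4]
  nlinarith

/-- The conclusions pass to smaller degrees. -/
lemma hodge_mono {R : ℕ → Set (W.H X)} {a b : ℕ} (hab : a ≤ b)
    (h : HodgeTypeFor W X D (InRing W.K R 1 b)) : HodgeTypeFor W X D (InRing W.K R 1 a) := by
  intro j hj z hz hT
  obtain ⟨i, hi, hx⟩ := hT
  exact h j hj z hz ⟨i, hi.trans hab, hx⟩

end Pool.Agent.V11322.FU
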